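import Pool.Agent.K3h22.E8.Stm8
import Pool.Agent.K3h68.ET.COORD2
import Pool.Agent.K3h76.ET.GPQ

/-!
# Linear spaces in general position (brick LIN8 of helper22, written by helper99)
-/

set_option autoImplicit false

namespace Pool.Agent.K3h99.E8

open Pool.Agent.K3h22.EX Pool.Agent.K3h22.E8 MvPolynomial

theorem t_LIN8 : S_LIN8 := by
  classical
  intro n s L hs hreal hcomp
  have hdir : L.toAffineSubspace.direction = L := Submodule.toAffineSubspace_direction L
  have hG : GenPos2 s L.toAffineSubspace := by
    refine ⟨?_, ?_, ?_⟩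
    · rw [hdir]; exact hs
    · rw [hdir]; exact hreal
    · rw [hdir]; exact hcomp
  obtain ⟨ι, l, μ, -, h1, -, hC1, hC2⟩ := Pool.Agent.K3h68.ET.t_COORD2 n s
    {u : Fin n ⊕ Fin n → ℂ | (fun i => u (Sum.inl i)) ∈ L} L.toAffineSubspace hG
    ⟨0, L.zero_mem⟩ (fun u hu => hu) (by
      intro f hf x hx
      exact hf (Sum.elim x 0) (show x ∈ L from hx))
  have hμ : ∀ i, μ i = 0 := by
    intro i
    have h := h1 0 (show (fun _ : Fin n => (0 : ℂ)) ∈ L from L.zero_mem) i
    simp only [Pi.zero_apply, mul_zero, Finset.sum_const_zero, zero_add] at h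
    exact h.symm
  have hz : ∀ z ∈ L, ∀ i, z i = ∑ a, l i a * z (ι a) := by
    intro z hzL i
    have h := h1 (Sum.elim z 0) (show z ∈ L from hzL) i
    simp only [Sum.elim_inl] at h
    rw [h, hμ, add_zero]
  refine ⟨?_, ?_⟩
  · obtain ⟨Q, N, hQ, hQζ, hN⟩ := Pool.Agent.K3h76.ET.t_GPQ s n l hC1
    refine ⟨Q, N, hQ, fun w hw => ?_, hN⟩
    obtain ⟨ζ, hζ⟩ := hQζ w hw
    let T : L →ₗ[ℂ] (Fin s → ℂ) :=
      { toFun := fun z a => (z : Fin n → ℂ) (ι a)
        map_add' := fun x y => rfl
        map_smul' := fun c x => rfl }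
    have hTinj : Function.Injective T := by
      rw [injective_iff_map_eq_zero]
      intro z hz0
      apply Subtype.ext
      funext i
      rw [hz z z.2 i]
      refine Finset.sum_eq_zero fun a _ => ?_
      have h := congrFun hz0 a
      have h' : (z : Fin n → ℂ) (ι a) = 0 := h
      rw [h', mul_zero]
    have hfr : Module.finrank ℂ L = Module.finrank ℂ (Fin s → ℂ) := by
      rw [hs, Module.finrank_fin_fun]
    obtain ⟨z, hzT⟩ := (LinearMap.injective_iff_surjective_of_finrank_eq_finrank hfr).1 hTinj ζ
    refine ⟨z, z.2, fun i => ?_⟩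
    rw [← hζ i, hz z z.2 i, dot]
    congr 1
    refine Finset.sum_congr rfl fun a _ => ?_
    have h' : (z : Fin n → ℂ) (ι a) = ζ a := congrFun hzT a
    rw [h']
  · intro r e σ z hzL hzσ
    let M : Matrix (Fin s) (Fin n) ℚ := fun j i =>
      Sum.elim (fun j' => if j' = j then 1 else 0) (fun b => -σ j b) (e.symm i)
    have hMl : ∀ j j', M j (e (Sum.inl j')) = if j' = j then 1 else 0 := fun j j' => by
      simp [M]
    have hMr : ∀ j b, M j (e (Sum.inr b)) = -σ j b := fun j b => by
      simp [M]
    have hMli : LinearIndependent ℚ (fun a => M a) := by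
      rw [Fintype.linearIndependent_iff]
      intro k hk a
      have h := congrFun hk (e (Sum.inl a))
      simp only [Finset.sum_apply, Pi.smul_apply, smul_eq_mul, Pi.zero_apply] at h
      rw [Finset.sum_eq_single a] at h
      · rw [hMl, if_pos rfl, mul_one] at h
        exact h
      · intro a' _ ha'
        rw [hMl, if_neg ha'.symm, mul_zero]
      · intro h'
        exact absurd (Finset.mem_univ a) h'
    have hsum : ∀ j, ∑ i, (M j i : ℂ) * z i = 0 := by
      intro j
      rw [← e.sum_comp, Fintype.sum_sum_type]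
      simp only [hMl, hMr]
      rw [Finset.sum_eq_single j]
      · rw [if_pos rfl, Rat.cast_one, one_mul, hzσ j, ← Finset.sum_add_distrib]
        refine Finset.sum_eq_zero fun b _ => ?_
        push_cast
        ring
      · intro j' _ hj'
        rw [if_neg hj', Rat.cast_zero, zero_mul]
      · intro h'
        exact absurd (Finset.mem_univ j) h'
    have hker : (fun a => z (ι a)) = (0 : Fin s → ℂ) := by
      apply Matrix.eq_zero_of_mulVec_eq_zero (hC2 M hMli)
      funext j
      rw [Matrix.mulVec, dotProduct, Pi.zero_apply]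
      simp only [Matrix.of_apply]
      rw [← hsum j]
      simp only [Finset.sum_mul]
      rw [Finset.sum_comm]
      refine Finset.sum_congr rfl fun i _ => ?_
      rw [hz z hzL i, Finset.mul_sum]
      refine Finset.sum_congr rfl fun a _ => by ring
    funext i
    rw [hz z hzL i]
    refine Finset.sum_eq_zero fun a _ => ?_
    have h' : z (ι a) = 0 := congrFun hker a
    rw [h', mul_zero]

end Pool.Agent.K3h99.E8
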